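import Mathlib

/-!
Block-wise log-concavity (MP_10bc19): the coordinate space of a block.
-/

namespace Pool.Agent.Helper77.DE

variable {n k : ℕ}

/-- The vectors of `ℝⁿ` supported in the block `b` of the partition `κ` of the coordinates. -/
def blockSpace (κ : Fin n → Fin k) (b : Fin k) : Submodule ℝ (EuclideanSpace ℝ (Fin n)) where
  carrier := {x | ∀ i, κ i ≠ b → x i = 0}
  add_mem' := by
    intro x y hx hy i hi
    rw [PiLp.add_apply, hx i hi, hy i hi, add_zero]
  zero_mem' := by
    intro i _
    rfl
  smul_mem' := by
    intro c x hx i hi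
    rw [PiLp.smul_apply, hx i hi, smul_zero]

end Pool.Agent.Helper77.DE
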