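import Pool.Agent.Helper77.DE.Main

/-!
Block-wise log-concavity (MP_10bc19): special cases of the condition on the blocks.
-/

open MeasureTheory Module Set Filter Topology
open scoped ENNReal Pointwise

namespace Pool.Agent.Helper77.DE

open Pool.Agent.Helper96.LB3 Pool.Agent.Helper75.L3V
open Pool.Agent.Helper86.LP (Phi sectionVolume IsLogConcave)

variable {n : ℕ}

theorem block_sup (κ : Fin n → Fin 2) : blockSpace κ 0 ⊔ blockSpace κ 1 = ⊤ := by
  rw [eq_top_iff]
  intro x _
  have h1 : (WithLp.toLp 2 fun i => if κ i = 0 then x i else 0 : EuclideanSpace ℝ (Fin n)) ∈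
      blockSpace κ 0 := by
    intro i hi
    change (if κ i = 0 then x i else 0) = 0
    rw [if_neg hi]
  have h2 : (WithLp.toLp 2 fun i => if κ i = 0 then 0 else x i : EuclideanSpace ℝ (Fin n)) ∈
      blockSpace κ 1 := by
    intro i hi
    change (if κ i = 0 then 0 else x i) = 0
    rw [if_pos (by omega)]
  have h3 : x = (WithLp.toLp 2 fun i => if κ i = 0 then x i else 0 : EuclideanSpace ℝ (Fin n)) +
      (WithLp.toLp 2 fun i => if κ i = 0 then 0 else x i : EuclideanSpace ℝ (Fin n)) := by
    ext i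
    change x i = (if κ i = 0 then x i else 0) + (if κ i = 0 then 0 else x i)
    by_cases h : κ i = 0
    · simp [h]
    · simp [h]
  rw [h3]
  exact Submodule.add_mem_sup h1 h2

/-- Two blocks, codimension at most three. -/
theorem block_dim (H : Submodule ℝ (EuclideanSpace ℝ (Fin n))) (hH : n ≤ finrank ℝ H + 3)
    (κ : Fin n → Fin 2) :
    finrank ℝ H ≤ ∑ b, finrank ℝ (H ⊓ blockSpace κ b : Submodule ℝ _) + 3 := by
  have hn : finrank ℝ (EuclideanSpace ℝ (Fin n)) = n := finrank_euclideanSpace_fin
  have h0 := Submodule.finrank_sup_add_finrank_inf_eq H (blockSpace κ 0)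
  have h1 := Submodule.finrank_sup_add_finrank_inf_eq H (blockSpace κ 1)
  have h2 := Submodule.finrank_sup_add_finrank_inf_eq (blockSpace κ 0) (blockSpace κ 1)
  rw [block_sup, finrank_top, hn] at h2
  have h3 := Submodule.finrank_le (H ⊔ blockSpace κ 0)
  have h4 := Submodule.finrank_le (H ⊔ blockSpace κ 1)
  rw [hn] at h3 h4
  rw [Fin.sum_univ_two]
  omega

/-- The single coordinates of a set `I` and one block with the others. -/
def sing (I : Finset (Fin n)) (i : Fin n) : Fin (n + 1) :=
  if i ∈ I then i.castSucc else Fin.last n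

theorem sing_inj (I : Finset (Fin n)) {i : Fin n} (hi : i ∈ I) (j : Fin n)
    (h : sing I j = sing I i) : j = i := by
  unfold sing at h
  rw [if_pos hi] at h
  by_cases hj : j ∈ I
  · rw [if_pos hj] at h
    exact Fin.castSucc_injective n h
  · rw [if_neg hj] at h
    exact absurd h.symm (Fin.castSucc_lt_last i).ne

/-- A set of coordinates of rank at most three. -/
theorem sing_dim (H : Submodule ℝ (EuclideanSpace ℝ (Fin n))) (I : Finset (Fin n))
    (hI : finrank ℝ (H.map (coordProj I)) ≤ 3) :
    finrank ℝ H ≤ ∑ b, finrank ℝ (H ⊓ blockSpace (sing I) b : Submodule ℝ _) + 3 := by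
  have h1 := LinearMap.finrank_range_add_finrank_ker ((coordProj I).comp H.subtype)
  rw [LinearMap.range_comp, Submodule.range_subtype] at h1
  have h2 : (LinearMap.ker ((coordProj I).comp H.subtype)).map H.subtype ≤
      H ⊓ blockSpace (sing I) (Fin.last n) := by
    rintro _ ⟨x, hx, rfl⟩
    refine ⟨x.2, fun i hi => ?_⟩
    have hiI : i ∈ I := by
      by_contra h
      exact hi (by unfold sing; rw [if_neg h])
    have h3 : ((coordProj I).comp H.subtype) x = 0 := hx
    exact congrFun h3 ⟨i, hiI⟩
  have h4 := Submodule.finrank_mono h2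
  rw [Submodule.finrank_map_subtype_eq] at h4
  have h5 : finrank ℝ (H ⊓ blockSpace (sing I) (Fin.last n) : Submodule ℝ _) ≤
      ∑ b, finrank ℝ (H ⊓ blockSpace (sing I) b : Submodule ℝ _) :=
    Finset.single_le_sum (f := fun b => finrank ℝ (H ⊓ blockSpace (sing I) b : Submodule ℝ _))
      (fun _ _ => Nat.zero_le _) (Finset.mem_univ (Fin.last n))
  omega

/-- From blocks to the variables in `I`. -/
theorem in_of_blocks {k : ℕ} {g : (Fin n → ℝ) → ℝ} {I : Finset (Fin n)} {κ : Fin n → Fin k}
    (hκ : ∀ i ∈ I, ∀ j, κ j = κ i → j = i)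
    (h : ∀ t : Fin n → ℝ, IsLogConcave fun u : Fin k → ℝ => g fun i => t i + u (κ i))
    (t₀ : Fin n → ℝ) :
    ConcaveOn ℝ {t : Fin n → ℝ | ∀ i ∉ I, t i = t₀ i} fun t => Real.log (g t) := by
  have hw : ∀ t : Fin n → ℝ, (∀ i ∉ I, t i = t₀ i) → t = fun i =>
      t₀ i + (fun b : Fin k => ∑ j ∈ I, if κ j = b then t j - t₀ j else 0) (κ i) := by
    intro t ht
    funext i
    by_cases hi : i ∈ I
    · have : ∑ j ∈ I, (if κ j = κ i then t j - t₀ j else 0) = t i - t₀ i := by
        rw [Finset.sum_eq_single i]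
        · rw [if_pos rfl]
        · intro j _ hj
          rw [if_neg fun hc => hj (hκ i hi j hc)]
        · intro hc
          exact absurd hi hc
      beta_reduce
      rw [this]
      ring
    · have : ∑ j ∈ I, (if κ j = κ i then t j - t₀ j else 0) = 0 := by
        refine Finset.sum_eq_zero fun j hj => ?_
        rw [if_neg]
        intro hc
        exact hi (by rw [hκ j hj i hc.symm]; exact hj)
      beta_reduce
      rw [this, ht i hi, add_zero]
  have hcv : Convex ℝ {t : Fin n → ℝ | ∀ i ∉ I, t i = t₀ i} := by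
    intro s hs t ht l m _ _ hlm i hi
    simp only [Pi.add_apply, Pi.smul_apply, smul_eq_mul]
    rw [hs i hi, ht i hi, ← add_mul, hlm, one_mul]
  refine ⟨hcv, ?_⟩
  intro s hs t ht l m hl hm hlm
  have key := (h t₀).2.2 (mem_univ fun b : Fin k => ∑ j ∈ I, if κ j = b then s j - t₀ j else 0)
    (mem_univ fun b : Fin k => ∑ j ∈ I, if κ j = b then t j - t₀ j else 0) hl hm hlm
  have e1 := hw s hs
  have e2 := hw t ht
  have e3 := hw _ (hcv hs ht hl hm hlm)
  have e4 : (fun b : Fin k => ∑ j ∈ I, if κ j = b then (l • s + m • t) j - t₀ j else 0) =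
      l • (fun b : Fin k => ∑ j ∈ I, if κ j = b then s j - t₀ j else 0) +
      m • fun b : Fin k => ∑ j ∈ I, if κ j = b then t j - t₀ j else 0 := by
    funext b
    simp only [Pi.add_apply, Pi.smul_apply, smul_eq_mul]
    rw [Finset.mul_sum, Finset.mul_sum, ← Finset.sum_add_distrib]
    refine Finset.sum_congr rfl fun j _ => ?_
    by_cases hj : κ j = b
    · rw [if_pos hj, if_pos hj, if_pos hj]
      have : t₀ j = (l + m) * t₀ j := by rw [hlm, one_mul]
      linarith
    · rw [if_neg hj, if_neg hj, if_neg hj, mul_zero, mul_zero, add_zero]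
  rw [e4] at e3
  beta_reduce at key e1 e2 e3 ⊢
  rw [← e1, ← e2, ← e3] at key
  exact key

/-- The partition of the coordinates in a set and its complement. -/
def two (A : Finset (Fin n)) (i : Fin n) : Fin 2 := if i ∈ A then 0 else 1

theorem two_val (A : Finset (Fin n)) (u : Fin 2 → ℝ) (i : Fin n) :
    u (two A i) = if i ∈ A then u 0 else u 1 := by
  unfold two
  by_cases h : i ∈ A
  · rw [if_pos h, if_pos h]
  · rw [if_neg h, if_neg h]

end Pool.Agent.Helper77.DE
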