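import Pool.Agent.Helper77.DE.Sets
import Pool.Agent.Helper75.L3V.TV

/-!
Block-wise log-concavity (MP_10bc19): several dilated even log-concave functions in dimension at
most three.
-/

open MeasureTheory Module Set Filter Topology
open scoped ENNReal Pointwise

namespace Pool.Agent.Helper77.DE

open Pool.Agent.Helper96.LB3 Pool.Agent.Helper75.L3V

/-- The layer function. -/
noncomputable def lay (v : ℝ) (y : ℝ≥0∞) : ℝ≥0∞ :=
  if ENNReal.ofReal (Real.exp v) ≤ y then ENNReal.ofReal (Real.exp v) else 0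

theorem lay_mono (v : ℝ) {y z : ℝ≥0∞} (h : y ≤ z) : lay v y ≤ lay v z := by
  unfold lay
  by_cases h1 : ENNReal.ofReal (Real.exp v) ≤ y
  · rw [if_pos h1, if_pos (h1.trans h)]
  · rw [if_neg h1]; exact bot_le

theorem measurable_lay {α : Type} [MeasurableSpace α] {f : α → ℝ} {g : α → ℝ≥0∞}
    (hf : Measurable f) (hg : Measurable g) : Measurable fun x => lay (f x) (g x) := by
  unfold lay
  have h : Measurable fun x => ENNReal.ofReal (Real.exp (f x)) :=
    (Real.measurable_exp.comp hf).ennreal_ofReal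
  exact Measurable.ite (measurableSet_le h hg) h measurable_const

theorem lint_lay_fin {y : ℝ≥0∞} (hy : y ≠ ∞) : ∫⁻ v, lay v y = y := by
  have h := layer (Measure.dirac ()) (f := fun _ => y) measurable_const (fun _ => hy)
  rw [lintegral_dirac] at h
  refine Eq.trans (lintegral_congr fun v => ?_) h.symm
  unfold lay
  by_cases h1 : ENNReal.ofReal (Real.exp v) ≤ y
  · simp [h1]
  · simp [h1]

theorem lint_lay (y : ℝ≥0∞) : ∫⁻ v, lay v y = y := by
  by_cases hy : y = ∞
  · rw [hy]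
    refine ENNReal.eq_top_of_forall_nnreal_le fun r => ?_
    calc (r : ℝ≥0∞) = ∫⁻ v, lay v r := (lint_lay_fin ENNReal.coe_ne_top).symm
      _ ≤ _ := lintegral_mono fun v => lay_mono v le_top
  · exact lint_lay_fin hy

variable {Y κ : Type} [NormedAddCommGroup Y] [NormedSpace ℝ Y] [FiniteDimensional ℝ Y]
  [MeasurableSpace Y] [BorelSpace Y]

/-- The level set of the dilated functions. -/
def Lv {k : ℕ} (F : Fin k → Y → ℝ≥0∞) (u w : Fin k → ℝ) : Set Y :=
  {x | ∀ b, ENNReal.ofReal (Real.exp (w b)) ≤ F b (Real.exp (-u b) • x)}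

omit [FiniteDimensional ℝ Y] [MeasurableSpace Y] [BorelSpace Y] in
theorem prod_lay {k : ℕ} (F : Fin k → Y → ℝ≥0∞) (u : Fin k → ℝ) (x : Y) :
    ∏ b, F b (Real.exp (-u b) • x) = ∫⁻ w : Fin k → ℝ,
      (∏ b, ENNReal.ofReal (Real.exp (w b))) * (Lv F u w).indicator 1 x := by
  have h := Helper58.LB3.lintegral_prod_pi k (fun b v => lay v (F b (Real.exp (-u b) • x)))
    (fun b => measurable_lay measurable_id measurable_const)
  simp only [lint_lay] at h
  rw [← h]
  refine lintegral_congr fun w => ?_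
  simp only [lay]
  rw [Finset.prod_ite_zero]
  by_cases hx : x ∈ Lv F u w
  · rw [indicator_of_mem hx, if_pos (fun b _ => hx b)]
    simp
  · rw [indicator_of_notMem hx, mul_zero, if_neg]
    intro h
    exact hx fun b => h b (Finset.mem_univ b)

omit [FiniteDimensional ℝ Y] in
theorem measurableSet_lv {k : ℕ} {F : Fin k → Y → ℝ≥0∞} (hF : ∀ b, Measurable (F b))
    (u : Fin k → ℝ) : MeasurableSet {z : (Fin k → ℝ) × Y | z.2 ∈ Lv F u z.1} := by
  have h : {z : (Fin k → ℝ) × Y | z.2 ∈ Lv F u z.1} =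
      ⋂ b, {z : (Fin k → ℝ) × Y |
        ENNReal.ofReal (Real.exp (z.1 b)) ≤ F b (Real.exp (-u b) • z.2)} := by
    ext z
    simp [Lv]
  rw [h]
  refine MeasurableSet.iInter fun b => measurableSet_le ?_ ?_
  · exact (Real.measurable_exp.comp ((measurable_pi_apply b).comp measurable_fst)).ennreal_ofReal
  · exact (hF b).comp (measurable_snd.const_smul _)

omit [FiniteDimensional ℝ Y] in
theorem box_lay (ν : Measure Y) [SFinite ν] {k : ℕ} {F : Fin k → Y → ℝ≥0∞}
    (hF : ∀ b, Measurable (F b)) (u : Fin k → ℝ) (E : Set Y) :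
    ∫⁻ x in E, ∏ b, F b (Real.exp (-u b) • x) ∂ν = ∫⁻ w : Fin k → ℝ,
      (∏ b, ENNReal.ofReal (Real.exp (w b))) * ν (E ∩ Lv F u w) := by
  have hmL := measurableSet_lv hF u
  have hm1 : Measurable fun w : Fin k → ℝ => ∏ b, ENNReal.ofReal (Real.exp (w b)) :=
    Finset.measurable_prod _ fun b _ =>
      (Real.measurable_exp.comp (measurable_pi_apply b)).ennreal_ofReal
  have hind : Measurable fun z : Y × (Fin k → ℝ) =>
      (Lv F u z.2).indicator (1 : Y → ℝ≥0∞) z.1 := by
    have h1 : (fun z : Y × (Fin k → ℝ) => (Lv F u z.2).indicator (1 : Y → ℝ≥0∞) z.1) =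
        fun z : Y × (Fin k → ℝ) => ({z : (Fin k → ℝ) × Y | z.2 ∈ Lv F u z.1}.indicator
          (fun _ => (1 : ℝ≥0∞))) (z.2, z.1) := by
      funext z
      rfl
    rw [h1]
    exact (measurable_const.indicator hmL).comp (measurable_snd.prodMk measurable_fst)
  simp only [prod_lay F u]
  rw [lintegral_lintegral_swap]
  · refine lintegral_congr fun w => ?_
    have hw : MeasurableSet (Lv F u w) := measurable_prodMk_left hmL
    rw [lintegral_const_mul _ (measurable_one.indicator hw), lintegral_indicator_one hw,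
      Measure.restrict_apply hw, inter_comm]
  · exact ((hm1.comp measurable_snd).mul hind).aemeasurable

omit [FiniteDimensional ℝ Y] in
theorem measurable_vol (ν : Measure Y) [SFinite ν] {k : ℕ} {F : Fin k → Y → ℝ≥0∞}
    (hF : ∀ b, Measurable (F b)) (u : Fin k → ℝ) {E : Set Y} (hE : MeasurableSet E) :
    Measurable fun w : Fin k → ℝ =>
      (∏ b, ENNReal.ofReal (Real.exp (w b))) * ν (E ∩ Lv F u w) := by
  refine Measurable.mul (Finset.measurable_prod _ fun b _ =>
      (Real.measurable_exp.comp (measurable_pi_apply b)).ennreal_ofReal) ?_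
  have h1 : MeasurableSet {z : (Fin k → ℝ) × Y | z.2 ∈ E ∩ Lv F u z.1} := by
    have : {z : (Fin k → ℝ) × Y | z.2 ∈ E ∩ Lv F u z.1} =
        (Prod.snd ⁻¹' E) ∩ {z : (Fin k → ℝ) × Y | z.2 ∈ Lv F u z.1} := rfl
    rw [this]
    exact (measurable_snd hE).inter (measurableSet_lv hF u)
  exact measurable_measure_prodMk_left h1

/-- Several dilated functions on a fixed box. -/
theorem ml2 (ν : Measure Y) [ν.IsAddHaarMeasure] [Fintype κ] (a : κ → Y →ₗ[ℝ] ℝ)
    (ha : Sep a) (hY : finrank ℝ Y ≤ 3) {k : ℕ} {F : Fin k → Y → ℝ≥0∞}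
    (hF : ∀ b, Measurable (F b)) (hFe : ∀ b x, F b (-x) = F b x) (hFl : ∀ b, LCf (F b))
    {l m : ℝ} (hl : 0 < l) (hm : 0 < m) (hlm : l + m = 1) (u v : Fin k → ℝ) {R : ℝ}
    (hR : 0 < R) :
    (∫⁻ x in KS a fun _ => R, ∏ b, F b (Real.exp (-u b) • x) ∂ν) ^ l *
      (∫⁻ x in KS a fun _ => R, ∏ b, F b (Real.exp (-v b) • x) ∂ν) ^ m ≤
      ∫⁻ x in KS a fun _ => R, ∏ b, F b (Real.exp (-(l * u b + m * v b)) • x) ∂ν := by
  have hE0 := h_POS Y κ ν a (fun _ => R) ha fun _ => hR
  have hEm : MeasurableSet (KS a fun _ => R) := hE0.1.isClosed.measurableSet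
  have hEc : Convex ℝ (KS a fun _ => R) := hE0.2.1
  have e3 := box_lay ν hF (fun b => l * u b + m * v b) (KS a fun _ => R)
  rw [box_lay ν hF u, box_lay ν hF v, e3]
  refine Helper67.LB.pl_pi k (measurable_vol ν hF u hEm) (measurable_vol ν hF v hEm)
    (measurable_vol ν hF _ hEm) hl hm hlm fun w w' => ?_
  rw [ENNReal.mul_rpow_of_nonneg _ _ hl.le, ENNReal.mul_rpow_of_nonneg _ _ hm.le,
    ← ENNReal.prod_rpow_of_nonneg hl.le, ← ENNReal.prod_rpow_of_nonneg hm.le,
    mul_mul_mul_comm, ← Finset.prod_mul_distrib]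
  refine mul_le_mul' (le_of_eq (Finset.prod_congr rfl fun b _ => exp_mix _ _ l m)) ?_
  have hlev : ∀ (u w : Fin k → ℝ), Convex ℝ (Lv F u w) := by
    intro u w
    have : Lv F u w = ⋂ b, {x | Real.exp (-u b) • x ∈
        {x | ENNReal.ofReal (Real.exp (w b)) ≤ F b x}} := by
      ext x
      simp [Lv]
    rw [this]
    refine convex_iInter fun b => ?_
    exact (level_convex (hFl b) (w b)).linear_preimage
      (Real.exp (-u b) • (LinearMap.id : Y →ₗ[ℝ] Y))
  have hsym : ∀ (u w : Fin k → ℝ) (x : Y), x ∈ (KS a fun _ => R) ∩ Lv F u w →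
      -x ∈ (KS a fun _ => R) ∩ Lv F u w := by
    rintro u w x ⟨h1, h2⟩
    refine ⟨fun j => ?_, fun b => ?_⟩
    · rw [map_neg, abs_neg]
      exact h1 j
    · rw [smul_neg, hFe]
      exact h2 b
  have hbd : ∀ (u w : Fin k → ℝ), Bornology.IsBounded ((KS a fun _ => R) ∩ Lv F u w) :=
    fun u w => hE0.1.isBounded.subset inter_subset_left
  have key := kc2 (β := Option (Fin k)) ν a ha hY (hEc.inter (hlev u w)) (hEc.inter (hlev v w'))
    (hsym u w) (hsym v w') (hbd u w) (hbd v w') hl hm hlm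
    (fun b => b.elim 1 fun b => Real.exp (u b)) (fun b => b.elim 1 fun b => Real.exp (v b))
    (by rintro (_ | b) <;> simp [Real.exp_pos]) (by rintro (_ | b) <;> simp [Real.exp_pos])
  refine key.trans (measure_mono ?_)
  intro x hx
  have hx0 := mem_iInter.1 hx
  refine ⟨?_, fun b => ?_⟩
  · obtain ⟨y, hy, z, hz, h⟩ := hx0 none
    simp only [Option.elim_none, Real.one_rpow, mul_one, inv_one, one_smul] at h
    rw [h]
    exact hEc hy.1 hz.1 hl.le hm.le hlm
  · obtain ⟨y, hy, z, hz, h⟩ := hx0 (some b)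
    simp only [Option.elim_some] at h
    have h1 : Real.exp (-(l * u b + m * v b)) • x =
        l • (Real.exp (-u b) • y) + m • (Real.exp (-v b) • z) := by
      rw [h, smul_smul, ← Real.exp_neg, ← Real.exp_neg, ← Real.exp_mul, ← Real.exp_mul,
        ← Real.exp_add, ← Real.exp_add]
      have : -(l * u b + m * v b) + (u b * l + v b * m) = 0 := by ring
      rw [this, Real.exp_zero, one_smul]
    change _ ≤ F b (Real.exp (-(l * u b + m * v b)) • x)
    rw [h1]
    exact level_mix (hFl b) hl hm hlm (hy.2 b) (hz.2 b)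

/-- Several dilated functions on the whole space. -/
theorem ml3 (ν : Measure Y) [ν.IsAddHaarMeasure] (hY : finrank ℝ Y ≤ 3) {k : ℕ}
    {F : Fin k → Y → ℝ≥0∞}
    (hF : ∀ b, Measurable (F b)) (hFe : ∀ b x, F b (-x) = F b x) (hFl : ∀ b, LCf (F b))
    {l m : ℝ} (hl : 0 < l) (hm : 0 < m) (hlm : l + m = 1) (u v : Fin k → ℝ) :
    (∫⁻ x, ∏ b, F b (Real.exp (-u b) • x) ∂ν) ^ l *
      (∫⁻ x, ∏ b, F b (Real.exp (-v b) • x) ∂ν) ^ m ≤
      ∫⁻ x, ∏ b, F b (Real.exp (-(l * u b + m * v b)) • x) ∂ν := by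
  set bs := Module.finBasis ℝ Y with hbs
  set a : Fin (finrank ℝ Y) → Y →ₗ[ℝ] ℝ := fun i => bs.coord i with ha0
  have ha : Sep a := by
    intro x hx
    exact bs.forall_coord_eq_zero_iff.1 hx
  have hmono : Monotone fun n : ℕ => KS a fun _ => ((n : ℝ) + 1) := by
    intro n n' hn x hx j
    have h1 : ((n : ℝ) + 1) ≤ (n' : ℝ) + 1 := by
      have : (n : ℝ) ≤ n' := by exact_mod_cast hn
      linarith
    exact (hx j).trans h1
  have hun : ⋃ n : ℕ, (KS a fun _ => ((n : ℝ) + 1)) = univ := by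
    refine eq_univ_of_forall fun x => ?_
    obtain ⟨N, hN⟩ := exists_nat_ge (∑ j, |a j x|)
    refine mem_iUnion.2 ⟨N, fun j => ?_⟩
    have h1 : |a j x| ≤ ∑ j, |a j x| :=
      Finset.single_le_sum (f := fun j => |a j x|) (fun _ _ => abs_nonneg _) (Finset.mem_univ j)
    linarith
  have hKm : ∀ n : ℕ, MeasurableSet (KS a fun _ => ((n : ℝ) + 1)) := fun n =>
    (h_POS Y (Fin (finrank ℝ Y)) ν a (fun _ => (n : ℝ) + 1) ha
      fun _ => by positivity).1.isClosed.measurableSet
  have hlim : ∀ g : Y → ℝ≥0∞, Measurable g →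
      Tendsto (fun n : ℕ => ∫⁻ x in KS a fun _ => ((n : ℝ) + 1), g x ∂ν) atTop
        (𝓝 (∫⁻ x, g x ∂ν)) := by
    intro g hg
    have h1 : ∀ n : ℕ, ∫⁻ x in KS a fun _ => ((n : ℝ) + 1), g x ∂ν =
        ∫⁻ x, (KS a fun _ => ((n : ℝ) + 1)).indicator g x ∂ν := fun n =>
      (lintegral_indicator (hKm n) g).symm
    simp only [h1]
    refine lintegral_tendsto_of_tendsto_of_monotone (fun n => (hg.indicator (hKm n)).aemeasurable)
      ?_ ?_
    · refine Eventually.of_forall fun x => ?_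
      intro n n' hn
      exact indicator_le_indicator_of_subset (hmono hn) (fun _ => bot_le) x
    · refine Eventually.of_forall fun x => ?_
      have h2 : x ∈ ⋃ n : ℕ, (KS a fun _ => ((n : ℝ) + 1)) := by rw [hun]; trivial
      obtain ⟨N, hN⟩ := mem_iUnion.1 h2
      refine tendsto_const_nhds.congr' ?_
      filter_upwards [eventually_ge_atTop N] with n hn
      rw [indicator_of_mem (hmono hn hN)]
  have hgm : ∀ u : Fin k → ℝ, Measurable fun x : Y => ∏ b, F b (Real.exp (-u b) • x) := fun u =>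
    Finset.measurable_prod _ fun b _ => (hF b).comp (measurable_id.const_smul _)
  set P : ℝ≥0∞ := ∫⁻ x, ∏ b, F b (Real.exp (-u b) • x) ∂ν with hP
  set Q : ℝ≥0∞ := ∫⁻ x, ∏ b, F b (Real.exp (-v b) • x) ∂ν with hQ
  by_cases hP0 : P = 0
  · rw [hP0, ENNReal.zero_rpow_of_pos hl, zero_mul]; exact bot_le
  by_cases hQ0 : Q = 0
  · rw [hQ0, ENNReal.zero_rpow_of_pos hm, mul_zero]; exact bot_le
  have h1 := hlim _ (hgm u)
  have h2 := hlim _ (hgm v)
  rw [← hP] at h1
  rw [← hQ] at h2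
  have h3 := (ENNReal.continuous_rpow_const (y := l)).continuousAt.tendsto.comp h1
  have h4 := (ENNReal.continuous_rpow_const (y := m)).continuousAt.tendsto.comp h2
  have h5 := ENNReal.Tendsto.mul h3 (Or.inl ?_) h4 (Or.inl ?_)
  · refine le_of_tendsto' h5 fun n => ?_
    exact (ml2 ν a ha hY hF hFe hFl hl hm hlm u v (R := (n : ℝ) + 1) (by positivity)).trans
      (setLIntegral_le_lintegral _ _)
  · intro h
    exact hP0 ((ENNReal.rpow_eq_zero_iff_of_pos hl).1 h)
  · intro h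
    exact hQ0 ((ENNReal.rpow_eq_zero_iff_of_pos hm).1 h)

end Pool.Agent.Helper77.DE
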