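import Pool.Agent.Helper77.DE.Red
import Pool.Agent.Helper77.DE.Block

/-!
Block-wise log-concavity (MP_10bc19): the section functions of the `ℓ_p` balls and of the cube are
log-concave along block scalings with at most three directions seen by several blocks.
-/

open MeasureTheory Module Set Filter Topology
open scoped ENNReal Pointwise

namespace Pool.Agent.Helper77.DE

open Pool.Agent.Helper96.LB3 Pool.Agent.Helper75.L3V
open Pool.Agent.Helper86.LP (Phi sectionVolume IsLogConcave)

variable {n k : ℕ}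

/-- The block spaces in `H`. -/
def nb (H : Submodule ℝ (EuclideanSpace ℝ (Fin n))) (κ : Fin n → Fin k) (b : Fin k) :
    Submodule ℝ H := (blockSpace κ b).comap H.subtype

theorem finrank_nb (H : Submodule ℝ (EuclideanSpace ℝ (Fin n))) (κ : Fin n → Fin k) (b : Fin k) :
    finrank ℝ (nb H κ b) = finrank ℝ (H ⊓ blockSpace κ b : Submodule ℝ _) := by
  rw [nb, ← Submodule.map_comap_subtype, Submodule.finrank_map_subtype_eq]

theorem nb_coord (H : Submodule ℝ (EuclideanSpace ℝ (Fin n))) (κ : Fin n → Fin k) (b : Fin k)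
    {v : H} (hv : v ∈ nb H κ b) (i : Fin n) (hi : κ i ≠ b) :
    (v : EuclideanSpace ℝ (Fin n)) i = 0 := hv i hi

theorem nb_ind (H : Submodule ℝ (EuclideanSpace ℝ (Fin n))) (κ : Fin n → Fin k)
    (v : Fin k → H) (hv : ∀ b, v b ∈ nb H κ b) (h0 : ∑ b, v b = 0) (b : Fin k) : v b = 0 := by
  apply Subtype.ext
  ext i
  by_cases hi : κ i = b
  · have h1 : ((∑ b, v b : H) : EuclideanSpace ℝ (Fin n)) i = 0 := by rw [h0]; rfl
    have h2 : ((∑ b, v b : H) : EuclideanSpace ℝ (Fin n)) i =
        ∑ b, ((v b : H) : EuclideanSpace ℝ (Fin n)) i := by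
      have : ((∑ b, v b : H) : EuclideanSpace ℝ (Fin n)) =
          ∑ b, ((v b : H) : EuclideanSpace ℝ (Fin n)) := by
        simp
      rw [this]
      simp
    rw [h2, Finset.sum_eq_single b] at h1
    · rw [h1]
      rfl
    · intro b' _ hb'
      exact nb_coord H κ b' (hv b') i (by rw [hi]; exact hb'.symm)
    · intro h
      exact absurd (Finset.mem_univ b) h
  · exact nb_coord H κ b (hv b) i hi

theorem psi_inv (p : ℝ) (H : Submodule ℝ (EuclideanSpace ℝ (Fin n))) (κ : Fin n → Fin k)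
    (τ : Fin n → ℝ) (b b' : Fin k) (h : b ≠ b') (x v : H) (hv : v ∈ nb H κ b) :
    psi p H (Finset.univ.filter fun i => κ i = b') τ (x + v) =
      psi p H (Finset.univ.filter fun i => κ i = b') τ x := by
  unfold psi
  refine Finset.prod_congr rfl fun i hi => ?_
  have hi' : κ i = b' := (Finset.mem_filter.1 hi).2
  have h1 : ((x + v : H) : EuclideanSpace ℝ (Fin n)) i =
      (x : EuclideanSpace ℝ (Fin n)) i + (v : EuclideanSpace ℝ (Fin n)) i := rfl
  rw [h1, nb_coord H κ b hv i (by rw [hi']; exact h.symm), add_zero]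

theorem phi_blocks (p : ℝ) (H : Submodule ℝ (EuclideanSpace ℝ (Fin n))) (κ : Fin n → Fin k)
    (τ : Fin n → ℝ) (u : Fin k → ℝ) :
    Phi p H (fun i => τ i - p * u (κ i)) =
      ∫⁻ x : H, ∏ b, psi p H (Finset.univ.filter fun i => κ i = b) τ (Real.exp (-u b) • x) := by
  unfold Phi
  refine lintegral_congr fun x => ?_
  rw [← Finset.prod_fiberwise Finset.univ κ]
  refine Finset.prod_congr rfl fun b _ => ?_
  unfold psi
  refine Finset.prod_congr rfl fun i hi => ?_
  have hi' : κ i = b := (Finset.mem_filter.1 hi).2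
  have h1 : ((Real.exp (-u b) • x : H) : EuclideanSpace ℝ (Fin n)) i =
      Real.exp (-u b) * (x : EuclideanSpace ℝ (Fin n)) i := rfl
  beta_reduce
  rw [h1, hi', abs_mul, abs_of_pos (Real.exp_pos _),
    Real.mul_rpow (Real.exp_pos _).le (abs_nonneg _), ← Real.exp_mul, ← mul_assoc, ← Real.exp_add]
  congr 5
  ring

theorem phi_mix {p : ℝ} (hp : 1 ≤ p) (H : Submodule ℝ (EuclideanSpace ℝ (Fin n)))
    (κ : Fin n → Fin k)
    (hH : finrank ℝ H ≤ ∑ b, finrank ℝ (H ⊓ blockSpace κ b : Submodule ℝ _) + 3)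
    {l m : ℝ} (hl : 0 < l) (hm : 0 < m) (hlm : l + m = 1) (τ : Fin n → ℝ) (u v : Fin k → ℝ) :
    Phi p H (fun i => τ i - p * u (κ i)) ^ l * Phi p H (fun i => τ i - p * v (κ i)) ^ m ≤
      Phi p H (fun i => τ i - p * (l * u (κ i) + m * v (κ i))) := by
  have h3 := phi_blocks p H κ τ (fun b => l * u b + m * v b)
  rw [phi_blocks, phi_blocks, h3]
  refine glf (volume : Measure H)
    (F := fun b => psi p H (Finset.univ.filter fun i => κ i = b) τ)
    (fun b => measurable_psi p H _ τ) (fun b x => psi_neg p H _ τ x) (fun b => psi_lc hp H _ τ)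
    (nb H κ) (fun b b' h x v hv => psi_inv p H κ τ b b' h x v hv) (nb_ind H κ) ?_ hl hm hlm u v
  simp only [finrank_nb]
  omega

/-- Log-concavity from the multiplicative inequality. -/
theorem lc_of_mul {g : (Fin k → ℝ) → ℝ} (hg : ∀ u, 0 < g u)
    (h : ∀ l m : ℝ, 0 < l → 0 < m → l + m = 1 → ∀ u v, g u ^ l * g v ^ m ≤ g (l • u + m • v)) :
    IsLogConcave g := by
  refine ⟨hg, convex_univ, ?_⟩
  intro s _ t _ l m hl hm hlm
  rcases hl.eq_or_lt with h0 | hl0
  · have hm1 : m = 1 := by linarith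
    rw [← h0, hm1]
    simp
  rcases hm.eq_or_lt with h0 | hm0
  · have hl1 : l = 1 := by linarith
    rw [← h0, hl1]
    simp
  have key := Real.log_le_log (mul_pos (Real.rpow_pos_of_pos (hg s) l)
    (Real.rpow_pos_of_pos (hg t) m)) (h l m hl0 hm0 hlm s t)
  rw [Real.log_mul (Real.rpow_pos_of_pos (hg s) l).ne' (Real.rpow_pos_of_pos (hg t) m).ne',
    Real.log_rpow (hg s), Real.log_rpow (hg t)] at key
  simpa only [smul_eq_mul] using key

theorem lc_section {p : ℝ} (hp : 1 ≤ p) (H : Submodule ℝ (EuclideanSpace ℝ (Fin n)))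
    (κ : Fin n → Fin k)
    (hH : finrank ℝ H ≤ ∑ b, finrank ℝ (H ⊓ blockSpace κ b : Submodule ℝ _) + 3)
    (t : Fin n → ℝ) :
    IsLogConcave fun u : Fin k → ℝ => sectionVolume p H fun i => t i + u (κ i) := by
  refine lc_of_mul (fun u => section_pos hp H _) fun l m hl hm hlm u v => ?_
  have hp0 : 0 < p := by linarith
  have hG : 0 < Real.Gamma (finrank ℝ H / p + 1) := Real.Gamma_pos_of_pos (by positivity)
  have hpos : ∀ τ, 0 < (Phi p H τ).toReal := fun τ =>
    ENNReal.toReal_pos (Helper86.LP.Phi_ne_zero H τ) (Helper86.LP.Phi_ne_top H hp τ)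
  have hval : ∀ w : Fin k → ℝ, sectionVolume p H (fun i => t i + w (κ i)) =
      (Phi p H (fun i => -(p * t i) - p * w (κ i))).toReal /
        Real.Gamma (finrank ℝ H / p + 1) := by
    intro w
    rw [Helper86.LP.volume_section hp]
    congr 3
    funext i
    ring
  have key := phi_mix hp H κ hH hl hm hlm (fun i => -(p * t i)) u v
  rw [← ENNReal.toReal_le_toReal (ENNReal.mul_ne_top
      (ENNReal.rpow_ne_top_of_nonneg hl.le (Helper86.LP.Phi_ne_top H hp _))
      (ENNReal.rpow_ne_top_of_nonneg hm.le (Helper86.LP.Phi_ne_top H hp _)))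
      (Helper86.LP.Phi_ne_top H hp _),
      ENNReal.toReal_mul, ← ENNReal.toReal_rpow, ← ENNReal.toReal_rpow] at key
  have h3 := hval (l • u + m • v)
  simp only [Pi.add_apply, Pi.smul_apply, smul_eq_mul] at h3
  simp only [Pi.add_apply, Pi.smul_apply, smul_eq_mul]
  rw [hval u, hval v, h3, Real.div_rpow (hpos _).le hG.le, Real.div_rpow (hpos _).le hG.le,
    div_mul_div_comm, ← Real.rpow_add hG, hlm, Real.rpow_one]
  exact div_le_div_of_nonneg_right key hG.le

theorem lcf_indicator {X : Type} [AddCommGroup X] [Module ℝ X] {D : Set X} (hD : Convex ℝ D) :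
    LCf (D.indicator fun _ => (1 : ℝ≥0∞)) := by
  intro l m hl hm hlm x y
  by_cases hx : x ∈ D
  · by_cases hy : y ∈ D
    · rw [indicator_of_mem hx, indicator_of_mem hy,
        indicator_of_mem (hD hx hy hl.le hm.le hlm)]
      simp
    · rw [indicator_of_notMem hy, ENNReal.zero_rpow_of_pos hm, mul_zero]
      exact bot_le
  · rw [indicator_of_notMem hx, ENNReal.zero_rpow_of_pos hl, zero_mul]
    exact bot_le

/-- The part of the box seen by the block `b`. -/
def bx (H : Submodule ℝ (EuclideanSpace ℝ (Fin n))) (κ : Fin n → Fin k) (t : Fin n → ℝ)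
    (b : Fin k) : Set H :=
  {x | ∀ i, κ i = b → |(x : EuclideanSpace ℝ (Fin n)) i| ≤ Real.exp (t i)}

theorem bx_convex (H : Submodule ℝ (EuclideanSpace ℝ (Fin n))) (κ : Fin n → Fin k)
    (t : Fin n → ℝ) (b : Fin k) : Convex ℝ (bx H κ t b) := by
  intro x hx y hy l m hl hm hlm i hi
  have h1 : ((l • x + m • y : H) : EuclideanSpace ℝ (Fin n)) i
    = l * (x : EuclideanSpace ℝ (Fin n)) i + m * (y : EuclideanSpace ℝ (Fin n)) i := rfl
  rw [h1]
  refine (abs_add_le _ _).trans ?_
  rw [abs_mul, abs_mul, abs_of_nonneg hl, abs_of_nonneg hm]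
  have h2 := mul_le_mul_of_nonneg_left (hx i hi) hl
  have h3 := mul_le_mul_of_nonneg_left (hy i hi) hm
  calc _ ≤ l * Real.exp (t i) + m * Real.exp (t i) := add_le_add h2 h3
    _ = Real.exp (t i) := by rw [← add_mul, hlm, one_mul]

theorem bx_meas (H : Submodule ℝ (EuclideanSpace ℝ (Fin n))) (κ : Fin n → Fin k)
    (t : Fin n → ℝ) (b : Fin k) : MeasurableSet (bx H κ t b) := by
  have : bx H κ t b = ⋂ i, ⋂ (_ : κ i = b), {x : H | |(x : EuclideanSpace ℝ (Fin n)) i|
      ≤ Real.exp (t i)} := by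
    ext x; simp [bx]
  rw [this]
  refine MeasurableSet.iInter fun i => MeasurableSet.iInter fun _ => ?_
  apply IsClosed.measurableSet
  apply isClosed_le
  · fun_prop
  · fun_prop

theorem bx_even (H : Submodule ℝ (EuclideanSpace ℝ (Fin n))) (κ : Fin n → Fin k)
    (t : Fin n → ℝ) (b : Fin k) (x : H) :
    (bx H κ t b).indicator (fun _ => (1 : ℝ≥0∞)) (-x) =
      (bx H κ t b).indicator (fun _ => (1 : ℝ≥0∞)) x := by
  have : -x ∈ bx H κ t b ↔ x ∈ bx H κ t b := by
    refine forall_congr' fun i => forall_congr' fun _ => ?_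
    have : ((-x : H) : EuclideanSpace ℝ (Fin n)) i = -((x : EuclideanSpace ℝ (Fin n)) i) := rfl
    rw [this, abs_neg]
  by_cases h : x ∈ bx H κ t b
  · rw [indicator_of_mem h, indicator_of_mem (this.2 h)]
  · rw [indicator_of_notMem h, indicator_of_notMem (fun h' => h (this.1 h'))]

theorem bx_inv (H : Submodule ℝ (EuclideanSpace ℝ (Fin n))) (κ : Fin n → Fin k)
    (t : Fin n → ℝ) (b b' : Fin k) (h : b ≠ b') (x v : H) (hv : v ∈ nb H κ b) :
    (bx H κ t b').indicator (fun _ => (1 : ℝ≥0∞)) (x + v) =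
      (bx H κ t b').indicator (fun _ => (1 : ℝ≥0∞)) x := by
  have : x + v ∈ bx H κ t b' ↔ x ∈ bx H κ t b' := by
    refine forall_congr' fun i => forall_congr' fun hi => ?_
    have h1 : ((x + v : H) : EuclideanSpace ℝ (Fin n)) i =
        (x : EuclideanSpace ℝ (Fin n)) i + (v : EuclideanSpace ℝ (Fin n)) i := rfl
    rw [h1, nb_coord H κ b hv i (by rw [hi]; exact h.symm), add_zero]
  by_cases h : x ∈ bx H κ t b'
  · rw [indicator_of_mem h, indicator_of_mem (this.2 h)]
  · rw [indicator_of_notMem h, indicator_of_notMem (fun h' => h (this.1 h'))]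

theorem box_blocks (H : Submodule ℝ (EuclideanSpace ℝ (Fin n))) (κ : Fin n → Fin k)
    (t : Fin n → ℝ) (u : Fin k → ℝ) :
    boxSectionVolume H (fun i => t i + u (κ i)) =
      (∫⁻ x : H, ∏ b, (bx H κ t b).indicator (fun _ => (1 : ℝ≥0∞))
        (Real.exp (-u b) • x)).toReal := by
  have hmem : ∀ (x : H) (b : Fin k), Real.exp (-u b) • x ∈ bx H κ t b ↔
      ∀ i, κ i = b → |(x : EuclideanSpace ℝ (Fin n)) i| ≤ Real.exp (t i + u (κ i)) := by
    intro x b
    refine forall_congr' fun i => forall_congr' fun hi => ?_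
    have h1 : ((Real.exp (-u b) • x : H) : EuclideanSpace ℝ (Fin n)) i =
        Real.exp (-u b) * (x : EuclideanSpace ℝ (Fin n)) i := rfl
    rw [h1, hi, abs_mul, abs_of_pos (Real.exp_pos _), Real.exp_neg, Real.exp_add,
      inv_mul_le_iff₀ (Real.exp_pos _), mul_comm (Real.exp (u b))]
  rw [box_eq]
  unfold VS Measure.real
  congr 1
  have hms : MeasurableSet (KS (co H) fun i => Real.exp (t i + u (κ i))) := by
    have : (KS (co H) fun i => Real.exp (t i + u (κ i))) =
        ⋂ i, {x : H | |(x : EuclideanSpace ℝ (Fin n)) i| ≤ Real.exp (t i + u (κ i))} := by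
      ext x; simp [KS, co]
    rw [this]
    refine MeasurableSet.iInter fun i => ?_
    apply IsClosed.measurableSet
    apply isClosed_le
    · fun_prop
    · fun_prop
  rw [← lintegral_indicator_one hms]
  refine lintegral_congr fun x => ?_
  by_cases hx : x ∈ KS (co H) fun i => Real.exp (t i + u (κ i))
  · rw [indicator_of_mem hx, Finset.prod_eq_one]
    · rfl
    · intro b _
      rw [indicator_of_mem ((hmem x b).2 fun i _ => hx i)]
  · rw [indicator_of_notMem hx]
    have hx' : ∃ i, ¬ |(x : EuclideanSpace ℝ (Fin n)) i| ≤ Real.exp (t i + u (κ i)) := by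
      by_contra hcon
      push Not at hcon
      exact hx fun i => hcon i
    obtain ⟨i, hi⟩ := hx'
    symm
    refine Finset.prod_eq_zero (Finset.mem_univ (κ i)) ?_
    rw [indicator_of_notMem]
    intro h
    exact hi ((hmem x (κ i)).1 h i rfl)

theorem lc_box' (H : Submodule ℝ (EuclideanSpace ℝ (Fin n))) (κ : Fin n → Fin k)
    (hH : finrank ℝ H ≤ ∑ b, finrank ℝ (H ⊓ blockSpace κ b : Submodule ℝ _) + 3)
    (t : Fin n → ℝ) :
    IsLogConcave fun u : Fin k → ℝ => boxSectionVolume H fun i => t i + u (κ i) := by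
  refine lc_of_mul (fun u => box_pos H _) fun l m hl hm hlm u v => ?_
  have key := glf (volume : Measure H)
    (F := fun b => (bx H κ t b).indicator (fun _ => (1 : ℝ≥0∞)))
    (fun b => measurable_const.indicator (bx_meas H κ t b)) (fun b x => bx_even H κ t b x)
    (fun b => lcf_indicator (bx_convex H κ t b))
    (nb H κ) (fun b b' h x v hv => bx_inv H κ t b b' h x v hv) (nb_ind H κ) (by
      simp only [finrank_nb]
      omega) hl hm hlm u v
  have hne : ∀ w : Fin k → ℝ, (∫⁻ x : H, ∏ b, (bx H κ t b).indicator (fun _ => (1 : ℝ≥0∞))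
        (Real.exp (-w b) • x)) ≠ ∞ := by
    intro w h
    have h1 := box_pos H (fun i => t i + w (κ i))
    rw [box_blocks, h] at h1
    simp at h1
  have h3 := box_blocks H κ t (l • u + m • v)
  simp only [Pi.add_apply, Pi.smul_apply, smul_eq_mul] at h3
  simp only [Pi.add_apply, Pi.smul_apply, smul_eq_mul]
  rw [box_blocks, box_blocks, h3]
  have key2 := (ENNReal.toReal_le_toReal (ENNReal.mul_ne_top
    (ENNReal.rpow_ne_top_of_nonneg hl.le (hne u))
    (ENNReal.rpow_ne_top_of_nonneg hm.le (hne v))) (hne fun b => l * u b + m * v b)).2 key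
  rw [ENNReal.toReal_mul, ← ENNReal.toReal_rpow, ← ENNReal.toReal_rpow] at key2
  exact key2

end Pool.Agent.Helper77.DE
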