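import Pool.Agent.Helper77.DE.Fun

/-!
Block-wise log-concavity (MP_10bc19): removing the directions seen by one block only.
-/

open MeasureTheory Module Set Filter Topology
open scoped ENNReal Pointwise

namespace Pool.Agent.Helper77.DE

open Pool.Agent.Helper96.LB3 Pool.Agent.Helper75.L3V

theorem lint_pi : ∀ {n : ℕ} {E : Fin n → Type} {_ : ∀ i, MeasurableSpace (E i)}
    {μ : (i : Fin n) → Measure (E i)} [∀ i, SigmaFinite (μ i)]
    {f : (i : Fin n) → E i → ℝ≥0∞}, (∀ i, Measurable (f i)) →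
    ∫⁻ x : (i : Fin n) → E i, ∏ i, f i (x i) ∂(Measure.pi μ) = ∏ i, ∫⁻ x, f i x ∂(μ i) := by
  intro n
  induction n with
  | zero => intro E mE μ _ f hf; simp
  | succ n n_ih =>
      intro E mE μ _ f hf
      have h1 : Measurable fun x : (i : Fin n) → E (Fin.succ i) =>
          ∏ i : Fin n, f (Fin.succ i) (x i) :=
        Finset.measurable_prod _ fun i _ => (hf _).comp (measurable_pi_apply i)
      calc
        _ = ∫⁻ x : E 0 × ((i : Fin n) → E (Fin.succ i)),
            f 0 x.1 * ∏ i : Fin n, f (Fin.succ i) (x.2 i)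
            ∂((μ 0).prod (Measure.pi (fun i ↦ μ i.succ))) := by
          rw [← ((measurePreserving_piFinSuccAbove μ 0).symm).lintegral_comp_emb
            (MeasurableEquiv.measurableEmbedding _)]
          simp_rw [MeasurableEquiv.piFinSuccAbove_symm_apply, Fin.insertNthEquiv,
            Fin.prod_univ_succ, Fin.insertNth_zero, Equiv.coe_fn_mk, Fin.cons_succ,
            Fin.zero_succAbove, cast_eq, Fin.cons_zero]
          rfl
        _ = (∫⁻ x, f 0 x ∂μ 0)
            * ∏ i : Fin n, ∫⁻ (x : E (Fin.succ i)), f (Fin.succ i) x ∂(μ i.succ) := by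
          rw [← n_ih (fun i => hf _), ← lintegral_prod_mul (hf 0).aemeasurable h1.aemeasurable]
        _ = ∏ i, ∫⁻ x, f i x ∂(μ i) := by rw [Fin.prod_univ_succ]

theorem lint_scale {r : ℕ} {g : (Fin r → ℝ) → ℝ≥0∞} (hg : Measurable g) (u : ℝ) :
    ∫⁻ z : Fin r → ℝ, g (Real.exp (-u) • z) =
      ENNReal.ofReal (Real.exp (u * r)) * ∫⁻ z : Fin r → ℝ, g z := by
  have h1 := Measure.map_addHaar_smul (volume : Measure (Fin r → ℝ))
    (r := Real.exp (-u)) (Real.exp_pos _).ne'
  have h2 : ∫⁻ z : Fin r → ℝ, g (Real.exp (-u) • z) =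
      ∫⁻ z : Fin r → ℝ, g z ∂(Measure.map (Real.exp (-u) • ·) (volume : Measure (Fin r → ℝ))) :=
    (lintegral_map hg (measurable_const_smul _)).symm
  rw [h2, h1, lintegral_smul_measure, smul_eq_mul]
  congr 2
  rw [Module.finrank_fin_fun, abs_of_pos (inv_pos.2 (pow_pos (Real.exp_pos _) _)),
    ← Real.exp_nat_mul, ← Real.exp_neg]
  congr 1
  ring

variable {X : Type} [NormedAddCommGroup X] [NormedSpace ℝ X] [FiniteDimensional ℝ X]

omit [FiniteDimensional ℝ X] in
theorem inv_sum {k : ℕ} {F : Fin k → X → ℝ≥0∞} {N : Fin k → Submodule ℝ X}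
    (hinv : ∀ b b', b ≠ b' → ∀ x, ∀ v ∈ N b, F b' (x + v) = F b' x) (b' : Fin k)
    (v : Fin k → X) (hv : ∀ b, v b ∈ N b) (x : X) :
    ∀ T : Finset (Fin k), b' ∉ T → F b' (x + ∑ b ∈ T, v b) = F b' x := by
  classical
  intro T
  induction T using Finset.induction_on with
  | empty => intro _; simp
  | insert c T hc ih =>
    intro h
    rw [Finset.sum_insert hc, add_comm (v c), ← add_assoc]
    rw [Finset.mem_insert, not_or] at h
    rw [hinv c b' (fun h' => h.1 h'.symm) _ _ (hv c)]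
    exact ih h.2

/-- The splitting of the space. -/
theorem exists_split2 {k : ℕ} (N : Fin k → Submodule ℝ X)
    (hind : ∀ v : Fin k → X, (∀ b, v b ∈ N b) → ∑ b, v b = 0 → ∀ b, v b = 0)
    (hdim : finrank ℝ X ≤ 3 + ∑ b, finrank ℝ (N b)) :
    ∃ (X' : Submodule ℝ X) (e : ∀ b, (Fin (finrank ℝ (N b)) → ℝ) ≃ₗ[ℝ] N b)
      (L : (X' × (∀ b, Fin (finrank ℝ (N b)) → ℝ)) ≃ₗ[ℝ] X),
      finrank ℝ X' ≤ 3 ∧ ∀ (y : X') z, L (y, z) = (y : X) + ∑ b, (e b (z b) : X) := by
  let P : (∀ b, N b) →ₗ[ℝ] X := ∑ b, (N b).subtype.comp (LinearMap.proj b)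
  have hP : ∀ v, P v = ∑ b, (v b : X) := fun v => by simp [P]
  have hPi : Function.Injective P := by
    rw [← LinearMap.ker_eq_bot, LinearMap.ker_eq_bot']
    intro v hv
    rw [hP] at hv
    have := hind (fun b => (v b : X)) (fun b => (v b).2) hv
    funext b
    exact Subtype.ext (this b)
  obtain ⟨X', hX'⟩ := (LinearMap.range P).exists_isCompl
  have hr : finrank ℝ (LinearMap.range P) = ∑ b, finrank ℝ (N b) := by
    rw [LinearMap.finrank_range_of_inj hPi, Module.finrank_pi_fintype]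
  have hf := Submodule.finrank_add_eq_of_isCompl hX'
  have e : ∀ b, (Fin (finrank ℝ (N b)) → ℝ) ≃ₗ[ℝ] N b := fun b =>
    (Module.finBasis ℝ (N b)).equivFun.symm
  let E : (∀ b, Fin (finrank ℝ (N b)) → ℝ) ≃ₗ[ℝ] LinearMap.range P :=
    (LinearEquiv.piCongrRight e).trans (LinearEquiv.ofInjective P hPi)
  have hE : ∀ z, (E z : X) = ∑ b, (e b (z b) : X) := by
    intro z
    change P (fun b => e b (z b)) = _
    rw [hP]
  let L : (X' × (∀ b, Fin (finrank ℝ (N b)) → ℝ)) ≃ₗ[ℝ] X :=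
    ((LinearEquiv.refl ℝ X').prodCongr E).trans (Submodule.prodEquivOfIsCompl X' _ hX'.symm)
  refine ⟨X', e, L, by omega, fun y z => ?_⟩
  change (y : X) + (E z : X) = _
  rw [hE]

variable [MeasurableSpace X] [BorelSpace X]

omit [FiniteDimensional ℝ X] in
/-- Splitting the integral. -/
theorem int_split {Y Z : Type} [NormedAddCommGroup Y] [NormedSpace ℝ Y] [FiniteDimensional ℝ Y]
    [MeasurableSpace Y] [BorelSpace Y] [NormedAddCommGroup Z] [NormedSpace ℝ Z]
    [FiniteDimensional ℝ Z] [MeasurableSpace Z] [BorelSpace Z]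
    (μ : Measure X) [μ.IsAddHaarMeasure] (ν : Measure Y) [ν.IsAddHaarMeasure]
    (ζ : Measure Z) [ζ.IsAddHaarMeasure] (L : (Y × Z) ≃ₗ[ℝ] X) :
    ∃ c : ℝ≥0∞, ∀ g : X → ℝ≥0∞, Measurable g →
      ∫⁻ x, g x ∂μ = c * ∫⁻ y, (∫⁻ z, g (L (y, z)) ∂ζ) ∂ν := by
  let Lc : (Y × Z) ≃L[ℝ] X := L.toContinuousLinearEquiv
  let μ' : Measure (Y × Z) := μ.map Lc.symm
  have : μ'.IsAddHaarMeasure := Lc.symm.isAddHaarMeasure_map μ
  let π0 : Measure (Y × Z) := ν.prod ζ
  have : π0.IsAddHaarMeasure := inferInstance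
  have h1 : μ' = Measure.addHaarScalarFactor μ' π0 • π0 :=
    Measure.isAddLeftInvariant_eq_smul μ' π0
  have hLm : Measurable (fun p : Y × Z => L p) := Lc.continuous.measurable
  refine ⟨(Measure.addHaarScalarFactor μ' π0 : ℝ≥0∞), fun g hg => ?_⟩
  have e1 : μ = μ'.map Lc := by
    change μ = (μ.map Lc.symm).map Lc
    rw [Measure.map_map Lc.continuous.measurable Lc.symm.continuous.measurable]
    have : (Lc : Y × Z → X) ∘ (Lc.symm : X → Y × Z) = id := by
      ext x; simp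
    rw [this, Measure.map_id]
  have e2 : ∫⁻ x, g x ∂μ = ∫⁻ p, g (L p) ∂μ' := by
    conv_lhs => rw [e1]
    rw [lintegral_map hg Lc.continuous.measurable]
    rfl
  have e3 : ∫⁻ p, g (L p) ∂μ' = (Measure.addHaarScalarFactor μ' π0 : ℝ≥0∞) *
      ∫⁻ p, g (L p) ∂π0 := by
    conv_lhs => rw [h1]
    exact lintegral_smul_measure _ _
  have e4 : ∫⁻ p, g (L p) ∂π0 = ∫⁻ y, (∫⁻ z, g (L (y, z)) ∂ζ) ∂ν :=
    lintegral_prod (fun p => g (L p)) (hg.comp hLm).aemeasurable
  rw [e2, e3, e4]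

theorem glf (μ : Measure X) [μ.IsAddHaarMeasure] {k : ℕ} {F : Fin k → X → ℝ≥0∞}
    (hF : ∀ b, Measurable (F b)) (hFe : ∀ b x, F b (-x) = F b x) (hFl : ∀ b, LCf (F b))
    (N : Fin k → Submodule ℝ X)
    (hinv : ∀ b b', b ≠ b' → ∀ x, ∀ v ∈ N b, F b' (x + v) = F b' x)
    (hind : ∀ v : Fin k → X, (∀ b, v b ∈ N b) → ∑ b, v b = 0 → ∀ b, v b = 0)
    (hdim : finrank ℝ X ≤ 3 + ∑ b, finrank ℝ (N b))
    {l m : ℝ} (hl : 0 < l) (hm : 0 < m) (hlm : l + m = 1) (u v : Fin k → ℝ) :
    (∫⁻ x, ∏ b, F b (Real.exp (-u b) • x) ∂μ) ^ l *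
      (∫⁻ x, ∏ b, F b (Real.exp (-v b) • x) ∂μ) ^ m ≤
      ∫⁻ x, ∏ b, F b (Real.exp (-(l * u b + m * v b)) • x) ∂μ := by
  obtain ⟨X', e, L, hX', hL⟩ := exists_split2 N hind hdim
  set ν : Measure X' := Measure.addHaar with hν
  obtain ⟨c, hc⟩ := int_split μ ν
    (volume : Measure (∀ b, Fin (finrank ℝ (N b)) → ℝ)) L
  have hem : ∀ b, Continuous fun z : Fin (finrank ℝ (N b)) → ℝ => ((e b z : N b) : X) :=
    fun b => (LinearMap.continuous_of_finiteDimensional
      ((N b).subtype.comp (e b).toLinearMap))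
  -- the marginals
  set φ : Fin k → X' → ℝ≥0∞ := fun b y =>
    ∫⁻ z : Fin (finrank ℝ (N b)) → ℝ, F b ((y : X) + (e b z : X)) with hφ
  have hG : ∀ b, Measurable fun p : X' × (Fin (finrank ℝ (N b)) → ℝ) =>
      F b ((p.1 : X) + (e b p.2 : X)) := fun b =>
    (hF b).comp ((measurable_subtype_coe.comp measurable_fst).add
      ((hem b).measurable.comp measurable_snd))
  have hφm : ∀ b, Measurable (φ b) := fun b => (hG b).lintegral_prod_right'
  have hφe : ∀ b y, φ b (-y) = φ b y := by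
    intro b y
    have h2 : ∀ z : Fin (finrank ℝ (N b)) → ℝ, F b (((-y : X') : X) + (e b z : X)) =
        F b ((y : X) + (e b (-z) : X)) := by
      intro z
      rw [← hFe b ((y : X) + (e b (-z) : X))]
      congr 1
      rw [map_neg]
      push_cast
      abel
    simp only [hφ, h2]
    exact Helper67.LB.lintegral_neg_pi fun z => F b ((y : X) + (e b z : X))
  have hφl : ∀ b, LCf (φ b) := by
    intro b l m hl hm hlm y y'
    refine Helper67.LB.pl_pi _ ((hG b).comp measurable_prodMk_left)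
      ((hG b).comp measurable_prodMk_left) ((hG b).comp measurable_prodMk_left)
      hl hm hlm fun z z' => ?_
    have h2 := hFl b l m hl hm hlm ((y : X) + (e b z : X)) ((y' : X) + (e b z' : X))
    refine h2.trans (le_of_eq ?_)
    congr 1
    rw [map_add, map_smul, map_smul]
    push_cast
    simp only [smul_add]
    abel
  have key : ∀ u : Fin k → ℝ, ∫⁻ x, ∏ b, F b (Real.exp (-u b) • x) ∂μ =
      c * ((∏ b, ENNReal.ofReal (Real.exp (u b * (finrank ℝ (N b) : ℝ)))) *
        ∫⁻ y, ∏ b, φ b (Real.exp (-u b) • y) ∂ν) := by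
    intro u
    have hpm : Measurable fun x => ∏ b, F b (Real.exp (-u b) • x) :=
      Finset.measurable_prod _ fun b _ => (hF b).comp (measurable_id.const_smul _)
    rw [hc _ hpm]
    congr 1
    have hpn : Measurable fun y : X' => ∏ b, φ b (Real.exp (-u b) • y) :=
      Finset.measurable_prod _ fun b _ => (hφm b).comp (continuous_const_smul _).measurable
    rw [← lintegral_const_mul _ hpn]
    refine lintegral_congr fun y => ?_
    have e5 : ∀ z : (∀ b, Fin (finrank ℝ (N b)) → ℝ), ∏ b, F b (Real.exp (-u b) • L (y, z)) =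
        ∏ b, F b (((Real.exp (-u b) • y : X') : X) + (e b (Real.exp (-u b) • z b) : X)) := by
      intro z
      refine Finset.prod_congr rfl fun b _ => ?_
      rw [hL, ← Finset.add_sum_erase _ _ (Finset.mem_univ b), smul_add, smul_add,
        Finset.smul_sum, ← add_assoc]
      have := inv_sum hinv b (fun b' => Real.exp (-u b) • (e b' (z b') : X))
        (fun b' => (N b').smul_mem _ (e b' (z b')).2)
        (Real.exp (-u b) • (y : X) + Real.exp (-u b) • (e b (z b) : X))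
        (Finset.univ.erase b) (Finset.notMem_erase _ _)
      rw [this]
      congr 1
      rw [map_smul]
      rfl
    simp only [e5]
    have hm1 : ∀ b, Measurable fun z : Fin (finrank ℝ (N b)) → ℝ =>
        F b (((Real.exp (-u b) • y : X') : X) + (e b z : X)) := fun b =>
      (hG b).comp measurable_prodMk_left
    have e6 : ∫⁻ z : (∀ b, Fin (finrank ℝ (N b)) → ℝ), ∏ b,
        F b (((Real.exp (-u b) • y : X') : X) + (e b (Real.exp (-u b) • z b) : X)) =
        ∏ b, ∫⁻ z : Fin (finrank ℝ (N b)) → ℝ,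
          F b (((Real.exp (-u b) • y : X') : X) + (e b (Real.exp (-u b) • z) : X)) :=
      lint_pi (μ := fun _ => volume) (f := fun b z =>
        F b (((Real.exp (-u b) • y : X') : X) + (e b (Real.exp (-u b) • z) : X)))
        fun b => (hm1 b).comp (continuous_const_smul _).measurable
    rw [e6, ← Finset.prod_mul_distrib]
    refine Finset.prod_congr rfl fun b _ => ?_
    exact lint_scale (hm1 b) (u b)
  rw [key, key, key]
  have main := ml3 ν hX' hφm hφe hφl hl hm hlm u v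
  rw [ENNReal.mul_rpow_of_nonneg _ _ hl.le, ENNReal.mul_rpow_of_nonneg _ _ hm.le,
    mul_mul_mul_comm, ← ENNReal.rpow_add_of_nonneg _ _ hl.le hm.le, hlm, ENNReal.rpow_one]
  refine mul_le_mul' le_rfl ?_
  rw [ENNReal.mul_rpow_of_nonneg _ _ hl.le, ENNReal.mul_rpow_of_nonneg _ _ hm.le,
    mul_mul_mul_comm]
  refine mul_le_mul' (le_of_eq ?_) main
  rw [← ENNReal.prod_rpow_of_nonneg hl.le, ← ENNReal.prod_rpow_of_nonneg hm.le,
    ← Finset.prod_mul_distrib]
  refine Finset.prod_congr rfl fun b _ => ?_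
  rw [exp_mix]
  congr 2
  ring

end Pool.Agent.Helper77.DE
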