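import Pool.Agent.Helper75.L3V.KC

/-!
Block-wise log-concavity (MP_10bc19): the log-Brunn-Minkowski inequality in dimension at most
three for several dilated symmetric convex sets.
-/

open MeasureTheory Module Set Filter Topology
open scoped ENNReal Pointwise

namespace Pool.Agent.Helper77.DE

open Pool.Agent.Helper96.LB3 Pool.Agent.Helper75.L3V

variable {Y κ β : Type} [NormedAddCommGroup Y] [NormedSpace ℝ Y] [FiniteDimensional ℝ Y]
  [MeasurableSpace Y] [BorelSpace Y]

/-- The mixture of two sets with dilations `p`, `q`. -/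
def Mx (l m : ℝ) (M1 M2 : Set Y) (p q : ℝ) : Set Y :=
  {x | ∃ y ∈ M1, ∃ z ∈ M2, x = (p ^ l * q ^ m) • (l • (p⁻¹ • y) + m • (q⁻¹ • z))}

omit [FiniteDimensional ℝ Y] [MeasurableSpace Y] [BorelSpace Y] in
theorem mx_convex (l m : ℝ) {M1 M2 : Set Y} (h1 : Convex ℝ M1) (h2 : Convex ℝ M2) (p q : ℝ) :
    Convex ℝ (Mx l m M1 M2 p q) := by
  have h : Mx l m M1 M2 p q =
      (p ^ l * q ^ m) • (l • (p⁻¹ • M1) + m • (q⁻¹ • M2)) := by
    ext x
    constructor
    · rintro ⟨y, hy, z, hz, rfl⟩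
      exact smul_mem_smul_set (add_mem_add (smul_mem_smul_set (smul_mem_smul_set hy))
        (smul_mem_smul_set (smul_mem_smul_set hz)))
    · rintro ⟨_, ⟨_, ⟨_, ⟨y, hy, rfl⟩, rfl⟩, _, ⟨_, ⟨z, hz, rfl⟩, rfl⟩, rfl⟩, rfl⟩
      exact ⟨y, hy, z, hz, rfl⟩
  rw [h]
  exact (((h1.smul _).smul _).add ((h2.smul _).smul _)).smul _

open Classical in
theorem kc2 (ν : Measure Y) [ν.IsAddHaarMeasure] [Fintype κ] (a : κ → Y →ₗ[ℝ] ℝ) (ha : Sep a)
    (hY : finrank ℝ Y ≤ 3) {M1 M2 : Set Y} (hc1 : Convex ℝ M1) (hc2 : Convex ℝ M2)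
    (hs1 : ∀ x ∈ M1, -x ∈ M1) (hs2 : ∀ x ∈ M2, -x ∈ M2)
    (hb1 : Bornology.IsBounded M1) (hb2 : Bornology.IsBounded M2)
    {l m : ℝ} (hl : 0 < l) (hm : 0 < m) (hlm : l + m = 1) [Fintype β] (p q : β → ℝ)
    (hp : ∀ b, 0 < p b) (hq : ∀ b, 0 < q b) :
    ν M1 ^ l * ν M2 ^ m ≤ ν (⋂ b, Mx l m M1 M2 (p b) (q b)) := by
  by_cases h10 : ν M1 = 0
  · rw [h10, ENNReal.zero_rpow_of_pos hl, zero_mul]; exact bot_le
  by_cases h20 : ν M2 = 0
  · rw [h20, ENNReal.zero_rpow_of_pos hm, mul_zero]; exact bot_le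
  have hne1 : M1.Nonempty := nonempty_of_measure_ne_zero h10
  have hne2 : M2.Nonempty := nonempty_of_measure_ne_zero h20
  -- countably many half spaces
  set U : β → (Y →L[ℝ] ℝ) → Set Y := fun b f =>
    {x | (p b ^ l * q b ^ m) * (l * ((p b)⁻¹ * sup M1 f) + m * ((q b)⁻¹ * sup M2 f)) < f x} with hU
  have hUo : ∀ b f, IsOpen (U b f) := fun b f => isOpen_lt continuous_const f.continuous
  have hT0 : ∀ b, ∃ T : Set (Y →L[ℝ] ℝ), T.Countable ∧ ⋃ i ∈ T, U b i = ⋃ i, U b i :=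
    fun b => TopologicalSpace.isOpen_iUnion_countable (U b) (hUo b)
  choose T hTc hT using hT0
  obtain ⟨ξ, hξ⟩ := ((countable_iUnion hTc).insert (0 : Y →L[ℝ] ℝ)).exists_eq_range
    (insert_nonempty _ _)
  set H1 : ℕ → ℝ := fun i => if ξ i = 0 then 1 else sup M1 (ξ i) with hH1
  set H2 : ℕ → ℝ := fun i => if ξ i = 0 then 1 else sup M2 (ξ i) with hH2
  have hH1p : ∀ i, 0 < H1 i := by
    intro i
    by_cases h : ξ i = 0
    · simp [hH1, h]
    · simp only [hH1, h, if_false]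
      exact sup_pos ν hb1 hs1 h10 h
  have hH2p : ∀ i, 0 < H2 i := by
    intro i
    by_cases h : ξ i = 0
    · simp [hH2, h]
    · simp only [hH2, h, if_false]
      exact sup_pos ν hb2 hs2 h20 h
  have hle1 : ∀ i, ∀ x ∈ M1, |ξ i x| ≤ H1 i := by
    intro i x hx
    by_cases h : ξ i = 0
    · simp [hH1, h]
    · simp only [hH1, h, if_false]
      exact abs_le_sup hb1 hs1 _ hx
  have hle2 : ∀ i, ∀ x ∈ M2, |ξ i x| ≤ H2 i := by
    intro i x hx
    by_cases h : ξ i = 0
    · simp [hH2, h]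
    · simp only [hH2, h, if_false]
      exact abs_le_sup hb2 hs2 _ hx
  -- a box containing both sets
  have hbox : ∀ {M : Set Y}, Bornology.IsBounded M → ∃ r : ℝ, 0 < r ∧
      ∀ x ∈ M, ∀ u, |a u x| ≤ r := by
    intro M hM
    obtain ⟨R, hR⟩ := hM.exists_norm_le
    refine ⟨∑ u, ‖(LinearMap.toContinuousLinearMap (a u))‖ * |R| + 1, by positivity, ?_⟩
    intro x hx u
    have h1 := (LinearMap.toContinuousLinearMap (a u)).le_opNorm x
    rw [Real.norm_eq_abs, LinearMap.coe_toContinuousLinearMap'] at h1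
    refine h1.trans ((mul_le_mul_of_nonneg_left ((hR x hx).trans (le_abs_self R))
      (norm_nonneg _)).trans ?_)
    refine (Finset.single_le_sum (f := fun u =>
      ‖(LinearMap.toContinuousLinearMap (a u))‖ * |R|) (fun v _ => ?_)
      (Finset.mem_univ u)).trans ?_
    · exact mul_nonneg (norm_nonneg _) (abs_nonneg _)
    · linarith
  obtain ⟨r1, hr1, hr1'⟩ := hbox hb1
  obtain ⟨r2, hr2, hr2'⟩ := hbox hb2
  set σ : κ → ℝ := fun _ => Real.log r1 with hσ
  set τ : κ → ℝ := fun _ => Real.log r2 with hτ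
  have hKs : IsCompact (KS a fun u => Real.exp (l * σ u + m * τ u)) :=
    (h_POS Y κ ν a _ ha fun u => Real.exp_pos _).1
  -- the outer bodies
  set W : ℕ → Set Y := fun N => (KS a fun u => Real.exp (l * σ u + m * τ u)) ∩
    {x | ∀ i < N, |ξ i x| ≤ Real.exp (l * Real.log (H1 i) + m * Real.log (H2 i))} with hW
  have hfam : ∀ N : ℕ, ν M1 ^ l * ν M2 ^ m ≤ ν (W N) := by
    intro N
    set φ : κ ⊕ Fin N → Y →ₗ[ℝ] ℝ := Sum.elim a fun i => (ξ i : Y →ₗ[ℝ] ℝ) with hφ
    have hsep : Sep φ := fun x hx => ha x fun u => hx (Sum.inl u)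
    have key := lbm_weights ν φ hsep hY hl hm hlm (Sum.elim σ fun i => Real.log (H1 i))
      (Sum.elim τ fun i => Real.log (H2 i))
    have e1 : M1 ⊆ KS φ fun u => Real.exp (Sum.elim σ (fun i : Fin N => Real.log (H1 i)) u) := by
      intro x hx
      rintro (u | i)
      · simp only [hφ, Sum.elim_inl, hσ]
        rw [Real.exp_log hr1]
        exact hr1' x hx u
      · simp only [hφ, Sum.elim_inr]
        rw [Real.exp_log (hH1p i)]
        exact hle1 i x hx
    have e2 : M2 ⊆ KS φ fun u => Real.exp (Sum.elim τ (fun i : Fin N => Real.log (H2 i)) u) := by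
      intro x hx
      rintro (u | i)
      · simp only [hφ, Sum.elim_inl, hτ]
        rw [Real.exp_log hr2]
        exact hr2' x hx u
      · simp only [hφ, Sum.elim_inr]
        rw [Real.exp_log (hH2p i)]
        exact hle2 i x hx
    have e3 : (KS φ fun u => Real.exp (l * Sum.elim σ (fun i : Fin N => Real.log (H1 i)) u +
        m * Sum.elim τ (fun i : Fin N => Real.log (H2 i)) u)) ⊆ W N := by
      intro x hx
      refine ⟨fun u => hx (Sum.inl u), fun i hi => ?_⟩
      exact hx (Sum.inr ⟨i, hi⟩)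
    calc ν M1 ^ l * ν M2 ^ m ≤ _ := mul_le_mul' (ENNReal.rpow_le_rpow (measure_mono e1) hl.le)
          (ENNReal.rpow_le_rpow (measure_mono e2) hm.le)
      _ ≤ _ := key
      _ ≤ ν (W N) := measure_mono e3
  have hWanti : Antitone W := by
    intro N N' hN x hx
    exact ⟨hx.1, fun i hi => hx.2 i (hi.trans_le hN)⟩
  have hWclosed : ∀ N, IsClosed (W N) := by
    intro N
    refine (hKs.isClosed).inter ?_
    have : {x : Y | ∀ i < N, |ξ i x| ≤ Real.exp (l * Real.log (H1 i) + m * Real.log (H2 i))}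
        = ⋂ i, ⋂ (_ : i < N), {x : Y | |ξ i x| ≤
          Real.exp (l * Real.log (H1 i) + m * Real.log (H2 i))} := by
      ext x; simp
    rw [this]
    exact isClosed_iInter fun i => isClosed_iInter fun _ =>
      isClosed_le (ξ i).continuous.abs continuous_const
  have hlim : ν M1 ^ l * ν M2 ^ m ≤ ν (⋂ N, W N) := by
    have h1 := tendsto_measure_iInter_atTop (μ := ν) (s := W)
      (fun N => (hWclosed N).measurableSet.nullMeasurableSet) hWanti
      ⟨0, ((measure_mono inter_subset_left).trans_lt hKs.measure_lt_top).ne⟩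
    exact ge_of_tendsto' h1 hfam
  -- the inclusion
  have hNc : ∀ b, Convex ℝ (Mx l m M1 M2 (p b) (q b)) := fun b => mx_convex l m hc1 hc2 _ _
  have hincl : (⋂ k, W k) ⊆ ⋂ b, closure (Mx l m M1 M2 (p b) (q b)) := by
    intro x hx
    have hx0 := mem_iInter.1 hx
    refine mem_iInter.2 fun b => ?_
    by_contra hxN
    have hcb : 0 < p b ^ l * q b ^ m :=
      mul_pos (Real.rpow_pos_of_pos (hp b) _) (Real.rpow_pos_of_pos (hq b) _)
    obtain ⟨f, u, hf1, hf2⟩ := geometric_hahn_banach_closed_point (hNc b).closure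
      isClosed_closure hxN
    have hxU : x ∈ U b f := by
      have hlp : 0 < l * (p b)⁻¹ := mul_pos hl (inv_pos.2 (hp b))
      have hmq : 0 < m * (q b)⁻¹ := mul_pos hm (inv_pos.2 (hq b))
      have hsup : (p b ^ l * q b ^ m) * (l * ((p b)⁻¹ * sup M1 f) + m * ((q b)⁻¹ * sup M2 f))
          ≤ u := by
        set c := p b ^ l * q b ^ m with hcdef
        have h1 : ∀ y ∈ M2, c * (l * ((p b)⁻¹ * sup M1 f) + m * ((q b)⁻¹ * f y)) ≤ u := by
          intro y hy
          have h2 : sup M1 f ≤ (u / c - m * ((q b)⁻¹ * f y)) / (l * (p b)⁻¹) := by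
            apply csSup_le (hne1.image _)
            rintro _ ⟨z, hz, rfl⟩
            rw [le_div_iff₀ hlp, le_sub_iff_add_le, le_div_iff₀ hcb]
            have h3 := hf1 _ (subset_closure (⟨z, hz, y, hy, rfl⟩ :
              c • (l • ((p b)⁻¹ • z) + m • ((q b)⁻¹ • y)) ∈ Mx l m M1 M2 (p b) (q b)))
            simp only [map_add, map_smul, smul_eq_mul] at h3
            nlinarith [h3]
          rw [le_div_iff₀ hlp, le_sub_iff_add_le, le_div_iff₀ hcb] at h2
          nlinarith [h2]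
        have h2 : sup M2 f ≤ (u / c - l * ((p b)⁻¹ * sup M1 f)) / (m * (q b)⁻¹) := by
          apply csSup_le (hne2.image _)
          rintro _ ⟨y, hy, rfl⟩
          rw [le_div_iff₀ hmq, le_sub_iff_add_le, le_div_iff₀ hcb]
          have := h1 y hy
          nlinarith [this]
        rw [le_div_iff₀ hmq, le_sub_iff_add_le, le_div_iff₀ hcb] at h2
        nlinarith [h2]
      exact lt_of_le_of_lt hsup hf2
    have hxT : x ∈ ⋃ g ∈ T b, U b g := by
      rw [hT]
      exact mem_iUnion.2 ⟨f, hxU⟩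
    obtain ⟨g, hgT, hgx⟩ := mem_iUnion₂.1 hxT
    obtain ⟨i, hi⟩ : g ∈ range ξ := by
      rw [← hξ]
      exact mem_insert_of_mem _ (mem_iUnion.2 ⟨b, hgT⟩)
    have hgx' : (p b ^ l * q b ^ m) * (l * ((p b)⁻¹ * sup M1 g) + m * ((q b)⁻¹ * sup M2 g))
      < g x := hgx
    have hxi := (hx0 (i + 1)).2 i (Nat.lt_succ_self i)
    have hpi : 0 < (p b)⁻¹ := inv_pos.2 (hp b)
    have hqi : 0 < (q b)⁻¹ := inv_pos.2 (hq b)
    by_cases hg0 : g = 0
    · have h1 : 0 ≤ sup M1 g := by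
        obtain ⟨y, hy⟩ := hne1
        exact (abs_nonneg _).trans (abs_le_sup hb1 hs1 g hy)
      have h2 : 0 ≤ sup M2 g := by
        obtain ⟨y, hy⟩ := hne2
        exact (abs_nonneg _).trans (abs_le_sup hb2 hs2 g hy)
      have h3 : g x = 0 := by rw [hg0]; rfl
      rw [h3] at hgx'
      have h4 : 0 ≤ (p b ^ l * q b ^ m) *
          (l * ((p b)⁻¹ * sup M1 g) + m * ((q b)⁻¹ * sup M2 g)) := by positivity
      linarith
    · have hi0 : ξ i ≠ 0 := by rw [hi]; exact hg0
      have e1 : H1 i = sup M1 g := by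
        rw [← hi]
        exact if_neg hi0
      have e2 : H2 i = sup M2 g := by
        rw [← hi]
        exact if_neg hi0
      have p1 : 0 < sup M1 g := e1 ▸ hH1p i
      have p2 : 0 < sup M2 g := e2 ▸ hH2p i
      rw [e1, e2, Real.exp_add, mul_comm l, mul_comm m, ← Real.rpow_def_of_pos p1,
        ← Real.rpow_def_of_pos p2, hi] at hxi
      have h1 := Real.geom_mean_le_arith_mean2_weighted hl.le hm.le
        (mul_pos hpi p1).le (mul_pos hqi p2).le hlm
      rw [Real.mul_rpow hpi.le p1.le, Real.mul_rpow hqi.le p2.le,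
        Real.inv_rpow (hp b).le, Real.inv_rpow (hq b).le] at h1
      have h2 := le_abs_self (g x)
      have h5 := mul_le_mul_of_nonneg_left h1 hcb.le
      have hpl : 0 < p b ^ l := Real.rpow_pos_of_pos (hp b) _
      have hqm : 0 < q b ^ m := Real.rpow_pos_of_pos (hq b) _
      have h6 : (p b ^ l * q b ^ m) * ((p b ^ l)⁻¹ * sup M1 g ^ l * ((q b ^ m)⁻¹ * sup M2 g ^ m))
          = sup M1 g ^ l * sup M2 g ^ m := by
        field_simp
      rw [h6] at h5
      linarith
  refine hlim.trans ((measure_mono hincl).trans ?_)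
  have h1 : (⋂ b, closure (Mx l m M1 M2 (p b) (q b))) ⊆
      (⋂ b, Mx l m M1 M2 (p b) (q b)) ∪ ⋃ b, frontier (Mx l m M1 M2 (p b) (q b)) := by
    intro x hx
    by_cases hx' : ∀ b, x ∈ Mx l m M1 M2 (p b) (q b)
    · exact Or.inl (mem_iInter.2 hx')
    · push Not at hx'
      obtain ⟨b, hb⟩ := hx'
      refine Or.inr (mem_iUnion.2 ⟨b, mem_iInter.1 hx b, fun h => hb (interior_subset h)⟩)
  refine (measure_mono h1).trans ((measure_union_le _ _).trans ?_)
  have h2 : ν (⋃ b, frontier (Mx l m M1 M2 (p b) (q b))) = 0 :=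
    measure_iUnion_null fun b => (hNc b).addHaar_frontier ν
  rw [h2, add_zero]

end Pool.Agent.Helper77.DE
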